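import Pool.Agent.Helper8.CL.Walk

/-!
# ST, block C: exponential bound for the walk and splitting of words
-/

set_option autoImplicit false

namespace Pool.Agent.Helper68.ST

open Pool.Agent.Helper52.Tao Pool.Agent.Helper8.ND Pool.Agent.Helper8.CL Filter Topology

/-- The walk with steps `-log d`, `log m - log d` is rarely above `b`. -/
theorem sup_walk {d m : ℕ} (hd : 2 ≤ d) (hdm : d < m)
    (hγ : (1 - 1 / (d : ℝ)) * Real.log m < Real.log d) :
    ∃ κ : ℝ, 0 < κ ∧ ∀ (s : ℕ) (b : ℝ),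
      cW d s (fun w => b ≤ (sg w : ℝ) * Real.log m - s * Real.log d) ≤
        (d : ℝ) ^ s * Real.exp (-(κ * b)) := by
  classical
  have hd1 : (1 : ℝ) < d := by exact_mod_cast (by omega : 1 < d)
  have hm1 : (1 : ℝ) < m := by exact_mod_cast (by omega : 1 < m)
  obtain ⟨κ, hκ, h⟩ := exists_expo hd (Real.log_pos hm1) (Real.log_pos hd1) hγ
  refine ⟨κ, hκ, fun s b => ?_⟩
  have hds : (0 : ℝ) < (d : ℝ) ^ s := by positivity
  have key : ∀ θ : ℝ, θ < b → cW d s (fun w => b ≤ (sg w : ℝ) * Real.log m - s * Real.log d) ≤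
      (d : ℝ) ^ s * Real.exp (-(κ * θ)) := by
    intro θ hθ
    have h1 := h θ s 0
    rw [V_nat, div_le_iff₀ hds, sub_zero, mul_comm (Real.exp _)] at h1
    rw [cW_eq_sum]
    refine le_trans (Finset.sum_le_sum fun w _ => ?_) h1
    by_cases hw : b ≤ (sg w : ℝ) * Real.log m - s * Real.log d
    · rw [if_pos hw, if_pos]
      linarith
    · rw [if_neg hw]
      split_ifs <;> norm_num
  have hcont : Continuous fun θ : ℝ => (d : ℝ) ^ s * Real.exp (-(κ * θ)) := by fun_prop
  refine ge_of_tendsto (x := 𝓝[<] b) (hcont.continuousWithinAt.tendsto) ?_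
  exact eventually_nhdsWithin_of_forall fun θ hθ => key θ hθ

/-- Splitting of words. -/
theorem cW_split {d m t s : ℕ} (hts : t ≤ s) (x : ℝ) :
    cW d s (fun w => (sg w : ℝ) * Real.log m ≤ x) =
      ∑ v ∈ W d t, cW d (s - t) (fun w => ((sg v + sg w : ℕ) : ℝ) * Real.log m ≤ x) := by
  obtain ⟨n, rfl⟩ := Nat.exists_eq_add_of_le hts
  rw [Nat.add_sub_cancel_left, cW_add]
  refine Finset.sum_congr rfl fun v _ => ?_
  simp only [sg_append]

end Pool.Agent.Helper68.ST
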